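import Mathlib

namespace Pool.Agent.H78.SM

/-- The edges of the complete graph on `Fin N`. -/
abbrev Edge (N : ℕ) : Type := (⊤ : SimpleGraph (Fin N)).edgeSet

/-- A map `f` from the edges of `K_N` to the edges of `K_N` is admissible if `f e` shares no
vertex with `e`. -/
def Admissible {N : ℕ} (f : Edge N → Edge N) : Prop :=
  ∀ e : Edge N, ∀ v : Fin N, v ∈ e.1 → v ∉ (f e).1

/-- The copy of the graph `G` in `K_N` given by the injective map `φ` of its vertices is good
for `f`: every edge of the copy is sent to an edge which contains no vertex of the copy. -/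
def Good {W : Type*} (G : SimpleGraph W) {N : ℕ} (f : Edge N → Edge N) (φ : W ↪ Fin N) : Prop :=
  ∀ u v : W, G.Adj u v → ∀ e : Edge N, e.1 = s(φ u, φ v) → ∀ x : W, φ x ∉ (f e).1

/-- The property of `N` in the definition of the set-mapping parameter. -/
def HasGoodCopies {W : Type*} [Fintype W] (G : SimpleGraph W) (N : ℕ) : Prop :=
  Fintype.card W ≤ N ∧ ∀ f : Edge N → Edge N, Admissible f → ∃ φ : W ↪ Fin N, Good G f φ

/-- The set-mapping parameter `w(G)`. -/
noncomputable def setMapping {W : Type*} [Fintype W] (G : SimpleGraph W) : ℕ :=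
  sInf {N : ℕ | HasGoodCopies G N}

end Pool.Agent.H78.SM
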