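import Pool.Agent.H78.SM.Core
import Pool.Agent.H78.SM.Defs

namespace Pool.Agent.H78.SM

open Finset

theorem exists_edge {N : ℕ} (hN : 4 ≤ N) (e : Sym2 (Fin N)) {S T : Set (Fin N)}
    (hS : S.Subsingleton) (hT : T.Subsingleton) :
    ∃ e' : Edge N, (∀ v : Fin N, v ∈ e → v ∉ e'.1) ∧ ∀ z ∈ S ∪ T, z ∉ e → z ∈ e'.1 := by
  classical
  set E : Finset (Fin N) := Finset.univ.filter (fun v => v ∈ e) with hE
  have hEc : E.card ≤ 2 := by
    induction e using Sym2.ind with
    | _ a b =>
      have : E ⊆ {a, b} := by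
        intro v hv
        rw [hE, Finset.mem_filter] at hv
        simpa using hv.2
      exact (Finset.card_le_card this).trans Finset.card_le_two
  set A : Finset (Fin N) := Finset.univ.filter (fun v => v ∈ S ∪ T ∧ v ∉ e) with hA
  have hAc : A.card ≤ 2 := by
    have h1 : A ⊆ Finset.univ.filter (fun v => v ∈ S) ∪ Finset.univ.filter (fun v => v ∈ T) := by
      intro v hv
      rw [hA, Finset.mem_filter] at hv
      rcases hv.2.1 with h | h
      · exact Finset.mem_union_left _ (by simpa using h)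
      · exact Finset.mem_union_right _ (by simpa using h)
    have h2 : (Finset.univ.filter (fun v => v ∈ S)).card ≤ 1 := by
      rw [Finset.card_le_one]
      intro a ha b hb
      exact hS (by simpa using ha) (by simpa using hb)
    have h3 : (Finset.univ.filter (fun v => v ∈ T)).card ≤ 1 := by
      rw [Finset.card_le_one]
      intro a ha b hb
      exact hT (by simpa using ha) (by simpa using hb)
    have h4 := Finset.card_le_card h1
    have h5 := Finset.card_union_le (Finset.univ.filter (fun v => v ∈ S))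
      (Finset.univ.filter (fun v => v ∈ T))
    omega
  have hAE : A ⊆ Eᶜ := by
    intro v hv
    rw [hA, Finset.mem_filter] at hv
    rw [Finset.mem_compl, hE, Finset.mem_filter]
    exact fun h => hv.2.2 h.2
  have hEC : 2 ≤ Eᶜ.card := by
    rw [Finset.card_compl, Fintype.card_fin]
    omega
  obtain ⟨B, hAB, hBE, hB⟩ := Finset.exists_subsuperset_card_eq hAE hAc hEC
  obtain ⟨x, y, hxy, rfl⟩ := Finset.card_eq_two.mp hB
  refine ⟨⟨s(x, y), by simpa using hxy⟩, ?_, ?_⟩
  · intro v hv hv'
    have h1 : v ∈ ({x, y} : Finset (Fin N)) := by simpa using hv'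
    have h2 := hBE h1
    rw [Finset.mem_compl, hE, Finset.mem_filter] at h2
    exact h2 ⟨Finset.mem_univ _, hv⟩
  · intro z hz hze
    have h1 : z ∈ A := by
      rw [hA, Finset.mem_filter]
      exact ⟨Finset.mem_univ _, hz, hze⟩
    have h2 := hAB h1
    simpa using h2

/-- There is an admissible map of the edges of `K_N` without good copies of `K_{n,n}`. -/
theorem exists_bad {m G s n q N : ℕ} (hN : 4 ≤ N) (hNm : N ≤ m * G * s)
    (hm : 0 < m) (hs : 0 < s) (hq : 2 * m ≤ q) (hn : 2 * (q + G * s) ≤ n)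
    (hc1 : ((N : ℝ) ^ n * (N : ℝ) ^ n) * Real.exp (-(((n : ℝ) ^ 2 / 2) / (2 * s))) < 1)
    (hc2 : (((m * G).choose q : ℝ) * ((m * G).choose q : ℝ)) *
      Real.exp (-(((q : ℝ) ^ 2 / 4) / m)) < 1) :
    ∃ f : Edge N → Edge N, Admissible f ∧
      ∀ φ : (Fin n ⊕ Fin n) ↪ Fin N, ¬ Good (completeBipartiteGraph (Fin n) (Fin n)) f φ := by
  classical
  have hcard : Fintype.card (Fin N) ≤ Fintype.card ((Fin m × Fin G) × Fin s) := by
    simpa using hNm
  obtain ⟨ψ⟩ := Function.Embedding.nonempty_of_card_le hcard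
  set un : Fin N → Fin m × Fin G := fun x => (ψ x).1 with hun
  set j : Fin N → Fin s := fun x => (ψ x).2 with hj
  have hinj : Function.Injective (fun x => (un x, j x)) := by
    intro x y hxy
    apply ψ.injective
    simp only [Prod.mk.injEq] at hxy
    exact Prod.ext hxy.1 hxy.2
  obtain ⟨κ, hκ⟩ := exists_slot1 hm hq hc2
  obtain ⟨c, hc⟩ := exists_slot2 hs un j n (by simpa using hc1)
  have hex : ∀ e : Edge N, ∃ e' : Edge N, (∀ v : Fin N, v ∈ e.1 → v ∉ e'.1) ∧
      ∀ z ∈ T1 un j κ e.1 ∪ T2 un j c e.1, z ∉ e.1 → z ∈ e'.1 := fun e =>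
    exists_edge hN e.1 (T1_subsingleton hinj κ e.1) (T2_subsingleton hinj c e.1)
  choose f hf1 hf2 using hex
  refine ⟨f, hf1, fun φ hφ => ?_⟩
  set A : Finset (Fin N) := Finset.univ.image (fun i : Fin n => φ (Sum.inl i)) with hA
  set B : Finset (Fin N) := Finset.univ.image (fun i : Fin n => φ (Sum.inr i)) with hB
  have hAc : A.card = n := by
    rw [hA, Finset.card_image_of_injective, Finset.card_univ, Fintype.card_fin]
    intro x y hxy
    exact Sum.inl_injective (φ.injective hxy)
  have hBc : B.card = n := by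
    rw [hB, Finset.card_image_of_injective, Finset.card_univ, Fintype.card_fin]
    intro x y hxy
    exact Sum.inr_injective (φ.injective hxy)
  have hAB : Disjoint A B := by
    rw [Finset.disjoint_left]
    intro z hz hz'
    obtain ⟨i, -, rfl⟩ := Finset.mem_image.mp hz
    obtain ⟨i', -, h⟩ := Finset.mem_image.mp hz'
    exact absurd (φ.injective h) (by simp)
  obtain ⟨a, ha, b, hb, z, hz, hzAB, hza, hzb⟩ := core hn hκ hc A B hAc hBc hAB
  obtain ⟨i, -, rfl⟩ := Finset.mem_image.mp ha
  obtain ⟨i', -, rfl⟩ := Finset.mem_image.mp hb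
  have hadj : (completeBipartiteGraph (Fin n) (Fin n)).Adj (Sum.inl i) (Sum.inr i') := by
    simp
  have hne : φ (Sum.inl i) ≠ φ (Sum.inr i') := by
    intro h
    exact absurd (φ.injective h) (by simp)
  have hzf := hf2 ⟨s(φ (Sum.inl i), φ (Sum.inr i')), by simpa using hne⟩ z hz (by
    simp only [Sym2.mem_iff]
    push Not
    exact ⟨hza, hzb⟩)
  have hx : ∃ x, φ x = z := by
    rcases hzAB with h | h
    · obtain ⟨x, -, rfl⟩ := Finset.mem_image.mp h
      exact ⟨_, rfl⟩
    · obtain ⟨x, -, rfl⟩ := Finset.mem_image.mp h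
      exact ⟨_, rfl⟩
  obtain ⟨x, rfl⟩ := hx
  exact hφ _ _ hadj _ rfl x hzf

end Pool.Agent.H78.SM
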