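import Pool.Agent.H78.SM.U

namespace Pool.Agent.H78.SM

open Finset

/-- Every finite set `A` has a subset `D` of size at least `|A| - |un(A)|`, each element of
which has a companion in `A` with the same unit. -/
theorem exists_companions {V W : Type*} [DecidableEq V] [DecidableEq W] (un : V → W)
    (A : Finset V) :
    ∃ D ⊆ A, ∃ r : V → V, A.card ≤ D.card + (A.image un).card ∧
      ∀ x ∈ D, r x ∈ A ∧ r x ≠ x ∧ un (r x) = un x := by
  classical
  rcases A.eq_empty_or_nonempty with rfl | ⟨a₀, ha₀⟩
  · exact ⟨∅, by simp, id, by simp, by simp⟩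
  have h' : ∀ w : W, ∃ y : V, w ∈ A.image un → (y ∈ A ∧ un y = w) := by
    intro w
    by_cases hw : w ∈ A.image un
    · obtain ⟨y, hy, rfl⟩ := Finset.mem_image.mp hw
      exact ⟨y, fun _ => ⟨hy, rfl⟩⟩
    · exact ⟨a₀, fun h => absurd h hw⟩
  choose ρ hρ using h'
  refine ⟨A.filter (fun x => ρ (un x) ≠ x), Finset.filter_subset _ _, fun x => ρ (un x), ?_, ?_⟩
  · have h1 := Finset.card_filter_add_card_filter_not (s := A) (fun x => ρ (un x) ≠ x)
    have h2 : (A.filter (fun x => ¬ (ρ (un x) ≠ x))).card ≤ (A.image un).card := by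
      apply Finset.card_le_card_of_injOn un
      · intro x hx
        have hx' := (Finset.mem_filter.mp hx).1
        exact Finset.mem_image_of_mem _ hx'
      · intro x hx y hy hxy
        have hx' := (Finset.mem_filter.mp hx).2
        have hy' := (Finset.mem_filter.mp hy).2
        push Not at hx' hy'
        rw [← hx', ← hy', hxy]
    omega
  · intro x hx
    rw [Finset.mem_filter] at hx
    have := hρ (un x) (Finset.mem_image_of_mem _ hx.1)
    exact ⟨this.1, hx.2, this.2⟩

/-- The second slot: a colouring `c` of the pairs such that, for all disjoint `A, B` of size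
`n` with `A` meeting at most `n/2` units, some vertex of `A` is hit. -/
theorem exists_slot2 {V : Type*} [Fintype V] [LinearOrder V] {W : Type*} [DecidableEq W] {s : ℕ}
    (hs : 0 < s) (un : V → W) (j : V → Fin s) (n : ℕ)
    (hc : ((Fintype.card V : ℝ) ^ n * (Fintype.card V : ℝ) ^ n) *
      Real.exp (-(((n : ℝ) ^ 2 / 2) / (2 * s))) < 1) :
    ∃ c : Sym2 V → Bool × Fin s, ∀ A B : Finset V, A.card = n → B.card = n → Disjoint A B →
      2 * (A.image un).card ≤ n →
      ∃ x ∈ A, ∃ y ∈ A, ∃ b ∈ B, x ≠ y ∧ un x = un y ∧ c s(x, b) = (decide (x < b), j y) := by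
  classical
  have : Nonempty (Fin s) := ⟨⟨0, hs⟩⟩
  have hcomp := fun A : Finset V => exists_companions un A
  choose D hDA r hcard hr using hcomp
  set F : Finset (Finset V × Finset V) :=
    ((Finset.powersetCard n Finset.univ) ×ˢ (Finset.powersetCard n Finset.univ)).filter
      (fun t => Disjoint t.1 t.2 ∧ 2 * (t.1.image un).card ≤ n) with hF
  set S : Finset V × Finset V → Sym2 V → Finset (Bool × Fin s) := fun t e =>
    ((D t.1 ×ˢ t.2).filter (fun z => s(z.1, z.2) = e)).image
      (fun z => (decide (z.1 < z.2), j (r t.1 z.1))) with hS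
  obtain ⟨c, hcc⟩ := exists_hitting F S ((n : ℝ) ^ 2 / 2) (by
    intro t ht
    rw [hF, Finset.mem_filter, Finset.mem_product, Finset.mem_powersetCard,
      Finset.mem_powersetCard] at ht
    obtain ⟨⟨⟨-, hA⟩, ⟨-, hB⟩⟩, hdis, hU⟩ := ht
    -- the number of nonempty constraint sets
    have h1 : ∀ e : Sym2 V, (((D t.1 ×ˢ t.2).image (fun z => s(z.1, z.2))).filter
        (fun e' => e' = e)).card ≤ (S t e).card := by
      intro e
      by_cases he : e ∈ (D t.1 ×ˢ t.2).image (fun z => s(z.1, z.2))
      · have h2 : (((D t.1 ×ˢ t.2).image (fun z => s(z.1, z.2))).filter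
            (fun e' => e' = e)).card ≤ 1 := by
          rw [Finset.card_le_one]
          intro a ha b hb
          rw [Finset.mem_filter] at ha hb
          rw [ha.2, hb.2]
        have h3 : 0 < (S t e).card := by
          rw [Finset.card_pos]
          obtain ⟨z, hz, hze⟩ := Finset.mem_image.mp he
          refine ⟨(decide (z.1 < z.2), j (r t.1 z.1)), ?_⟩
          rw [hS]
          exact Finset.mem_image.mpr ⟨z, Finset.mem_filter.mpr ⟨hz, hze⟩, rfl⟩
        omega
      · have : (((D t.1 ×ˢ t.2).image (fun z => s(z.1, z.2))).filter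
            (fun e' => e' = e)) = ∅ := by
          rw [Finset.filter_eq_empty_iff]
          intro e' he' h
          exact he (h ▸ he')
        rw [this]
        simp
    have h2 : ((D t.1 ×ˢ t.2).image (fun z => s(z.1, z.2))).card =
        (D t.1 ×ˢ t.2).card := by
      apply Finset.card_image_of_injOn
      intro z hz w hw hzw
      have hz' := Finset.mem_product.mp hz
      have hw' := Finset.mem_product.mp hw
      simp only [Sym2.eq_iff] at hzw
      rcases hzw with ⟨h3, h4⟩ | ⟨h3, h4⟩
      · exact Prod.ext h3 h4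
      · exfalso
        exact (Finset.disjoint_left.mp hdis) (hDA t.1 hz'.1) (h3 ▸ hw'.2)
    have h3 : ∑ e : Sym2 V, (((D t.1 ×ˢ t.2).image (fun z => s(z.1, z.2))).filter
        (fun e' => e' = e)).card = ((D t.1 ×ˢ t.2).image (fun z => s(z.1, z.2))).card := by
      rw [← Finset.card_eq_sum_card_fiberwise (f := fun e => e) (t := Finset.univ)]
      intro e _
      simp
    have h4 : (D t.1 ×ˢ t.2).card ≤ ∑ e : Sym2 V, (S t e).card := by
      rw [← h2, ← h3]
      exact Finset.sum_le_sum (fun e _ => h1 e)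
    have h5 := hcard t.1
    rw [Finset.card_product] at h4
    have h6 : n ≤ 2 * (D t.1).card := by omega
    have h7 : (n : ℝ) ≤ 2 * ((D t.1).card : ℝ) := by exact_mod_cast h6
    have h8 : (((D t.1).card * t.2.card : ℕ) : ℝ) ≤ ∑ e : Sym2 V, ((S t e).card : ℝ) := by
      have : (((D t.1).card * t.2.card : ℕ) : ℝ) ≤ ((∑ e : Sym2 V, (S t e).card : ℕ) : ℝ) := by
        exact_mod_cast h4
      simpa using this
    rw [hB] at h8
    push_cast at h8
    have h9 : (0 : ℝ) ≤ n := Nat.cast_nonneg n
    nlinarith) (by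
    have h1 : (F.card : ℝ) ≤ (Fintype.card V : ℝ) ^ n * (Fintype.card V : ℝ) ^ n := by
      have h2 : F.card ≤ (Fintype.card V) ^ n * (Fintype.card V) ^ n := by
        calc F.card ≤ ((Finset.powersetCard n (Finset.univ : Finset V)) ×ˢ
              (Finset.powersetCard n Finset.univ)).card := Finset.card_filter_le _ _
          _ = (Fintype.card V).choose n * (Fintype.card V).choose n := by
              rw [Finset.card_product, Finset.card_powersetCard, Finset.card_univ]
          _ ≤ _ := Nat.mul_le_mul (Nat.choose_le_pow _ _) (Nat.choose_le_pow _ _)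
      exact_mod_cast h2
    have h3 : (Fintype.card (Bool × Fin s) : ℝ) = 2 * s := by
      simp
    rw [h3]
    calc (F.card : ℝ) * Real.exp (-(((n : ℝ) ^ 2 / 2) / (2 * s)))
        ≤ ((Fintype.card V : ℝ) ^ n * (Fintype.card V : ℝ) ^ n) *
          Real.exp (-(((n : ℝ) ^ 2 / 2) / (2 * s))) := by gcongr
      _ < 1 := hc)
  refine ⟨c, fun A B hA hB hdis hU => ?_⟩
  obtain ⟨e, he⟩ := hcc (A, B) (by
    rw [hF, Finset.mem_filter, Finset.mem_product, Finset.mem_powersetCard,
      Finset.mem_powersetCard]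
    exact ⟨⟨⟨Finset.subset_univ _, hA⟩, ⟨Finset.subset_univ _, hB⟩⟩, hdis, hU⟩)
  rw [hS] at he
  obtain ⟨z, hz, hze⟩ := Finset.mem_image.mp he
  rw [Finset.mem_filter, Finset.mem_product] at hz
  obtain ⟨⟨hz1, hz2⟩, rfl⟩ := hz
  obtain ⟨h1, h2, h3⟩ := hr A z.1 hz1
  exact ⟨z.1, hDA A hz1, r A z.1, h1, z.2, hz2, fun h => h2 h.symm, h3.symm, hze.symm⟩

end Pool.Agent.H78.SM
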