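import Pool.Agent.H78.SM.Slot1
import Pool.Agent.H78.SM.Slot2

namespace Pool.Agent.H78.SM

open Finset

/-- Targets of the first slot. -/
def T1 {V : Type*} {m G s : ℕ} (un : V → Fin m × Fin G) (j : V → Fin s)
    (κ : Fin G × (Fin m × Fin G) → Fin m) (e : Sym2 V) : Set V :=
  {z | ∃ x b, s(x, b) = e ∧ (un x).2 < (un b).2 ∧ (un z).2 = (un x).2 ∧ j z = j x ∧
    (un z).1 = κ ((un x).2, un b)}

/-- Targets of the second slot. -/
def T2 {V : Type*} [LinearOrder V] {m G s : ℕ} (un : V → Fin m × Fin G) (j : V → Fin s)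
    (c : Sym2 V → Bool × Fin s) (e : Sym2 V) : Set V :=
  {z | ∃ x b, s(x, b) = e ∧ un z = un x ∧ c e = (decide (x < b), j z)}

theorem T1_subsingleton {V : Type*} {m G s : ℕ} {un : V → Fin m × Fin G} {j : V → Fin s}
    (hinj : Function.Injective (fun x => (un x, j x)))
    (κ : Fin G × (Fin m × Fin G) → Fin m) (e : Sym2 V) : (T1 un j κ e).Subsingleton := by
  rintro z ⟨x, b, rfl, h1, h2, h3, h4⟩ z' ⟨x', b', he, h1', h2', h3', h4'⟩
  rw [Sym2.eq_iff] at he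
  rcases he with ⟨rfl, rfl⟩ | ⟨rfl, rfl⟩
  · apply hinj
    simp only [Prod.mk.injEq]
    exact ⟨Prod.ext (h4.trans h4'.symm) (h2.trans h2'.symm), h3.trans h3'.symm⟩
  · exact absurd h1 (not_lt.mpr h1'.le)

theorem T2_subsingleton {V : Type*} [LinearOrder V] {m G s : ℕ} {un : V → Fin m × Fin G}
    {j : V → Fin s} (hinj : Function.Injective (fun x => (un x, j x)))
    (c : Sym2 V → Bool × Fin s) (e : Sym2 V) : (T2 un j c e).Subsingleton := by
  rintro z ⟨x, b, rfl, h1, h2⟩ z' ⟨x', b', he, h1', h2'⟩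
  rw [h2] at h2'
  simp only [Prod.mk.injEq] at h2'
  obtain ⟨h3, h4⟩ := h2'
  apply hinj
  simp only [Prod.mk.injEq]
  refine ⟨?_, h4⟩
  rw [h1, h1']
  rw [Sym2.eq_iff] at he
  rcases he with ⟨rfl, rfl⟩ | ⟨rfl, rfl⟩
  · rfl
  · rcases lt_trichotomy x' b' with h | h | h
    · simp [h, not_lt.mpr h.le] at h3
    · rw [h]
    · simp [h, not_lt.mpr h.le] at h3

/-- Among the units of `A`, all but at most `G * s` have a vertex of `A` whose row contains
another vertex of `A`. -/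
theorem exists_partners {V : Type*} [DecidableEq V] {m G s : ℕ}
    (un : V → Fin m × Fin G) (j : V → Fin s) (A : Finset V) :
    ∃ P : Finset (Fin m × Fin G), (A.image un).card ≤ P.card + G * s ∧
      ∀ u ∈ P, ∃ a ∈ A, ∃ a' ∈ A, un a = u ∧ a ≠ a' ∧ (un a).2 = (un a').2 ∧ j a = j a' := by
  classical
  rcases A.eq_empty_or_nonempty with rfl | ⟨a₀, ha₀⟩
  · exact ⟨∅, by simp, by simp⟩
  have h' : ∀ w : Fin m × Fin G, ∃ y : V, w ∈ A.image un → (y ∈ A ∧ un y = w) := by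
    intro w
    by_cases hw : w ∈ A.image un
    · obtain ⟨y, hy, rfl⟩ := Finset.mem_image.mp hw
      exact ⟨y, fun _ => ⟨hy, rfl⟩⟩
    · exact ⟨a₀, fun h => absurd h hw⟩
  choose ρ hρ using h'
  refine ⟨(A.image un).filter (fun u => ∃ u' ∈ A.image un, u' ≠ u ∧
    ((u'.2, j (ρ u')) : Fin G × Fin s) = (u.2, j (ρ u))), ?_, ?_⟩
  · have h1 := Finset.card_filter_add_card_filter_not (s := A.image un)
      (fun u => ∃ u' ∈ A.image un, u' ≠ u ∧
        ((u'.2, j (ρ u')) : Fin G × Fin s) = (u.2, j (ρ u)))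
    have h2 : ((A.image un).filter (fun u => ¬ ∃ u' ∈ A.image un, u' ≠ u ∧
        ((u'.2, j (ρ u')) : Fin G × Fin s) = (u.2, j (ρ u)))).card ≤
        (Finset.univ : Finset (Fin G × Fin s)).card := by
      apply Finset.card_le_card_of_injOn (fun u => (u.2, j (ρ u)))
      · intro x _
        simp
      · intro x hx y hy hxy
        by_contra hne
        have hx' := Finset.mem_filter.mp hx
        have hy' := Finset.mem_filter.mp hy
        exact hy'.2 ⟨x, hx'.1, hne, hxy⟩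
    rw [Finset.card_univ, Fintype.card_prod, Fintype.card_fin, Fintype.card_fin] at h2
    omega
  · intro u hu
    rw [Finset.mem_filter] at hu
    obtain ⟨hu1, u', hu', hne, heq⟩ := hu
    have h1 := hρ u hu1
    have h2 := hρ u' hu'
    simp only [Prod.mk.injEq] at heq
    refine ⟨ρ u, h1.1, ρ u', h2.1, h1.2, ?_, ?_, heq.2.symm⟩
    · intro h
      apply hne
      rw [← h1.2, ← h2.2, h]
    · rw [h1.2, h2.2, heq.1]

/-- The combinatorial core. -/
theorem core {V : Type*} [Fintype V] [LinearOrder V] {m G s n q : ℕ}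
    (hn : 2 * (q + G * s) ≤ n) {un : V → Fin m × Fin G} {j : V → Fin s}
    {κ : Fin G × (Fin m × Fin G) → Fin m} {c : Sym2 V → Bool × Fin s}
    (hκ : ∀ P Q : Finset (Fin m × Fin G), P.card = q → Q.card = q →
      ∃ u ∈ P, ∃ v ∈ Q, (u.2 < v.2 ∧ κ (u.2, v) = u.1) ∨ (v.2 < u.2 ∧ κ (v.2, u) = v.1))
    (hcc : ∀ A B : Finset V, A.card = n → B.card = n → Disjoint A B →
      2 * (A.image un).card ≤ n →
      ∃ x ∈ A, ∃ y ∈ A, ∃ b ∈ B, x ≠ y ∧ un x = un y ∧ c s(x, b) = (decide (x < b), j y))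
    (A B : Finset V) (hA : A.card = n) (hB : B.card = n) (hAB : Disjoint A B) :
    ∃ a ∈ A, ∃ b ∈ B, ∃ z ∈ T1 un j κ s(a, b) ∪ T2 un j c s(a, b),
      (z ∈ A ∨ z ∈ B) ∧ z ≠ a ∧ z ≠ b := by
  classical
  by_cases hUA : 2 * (A.image un).card ≤ n
  · obtain ⟨x, hx, y, hy, b, hb, hxy, hun, hcol⟩ := hcc A B hA hB hAB hUA
    refine ⟨x, hx, b, hb, y, Or.inr ⟨x, b, rfl, hun.symm, hcol⟩, Or.inl hy, hxy.symm, ?_⟩
    rintro rfl
    exact (Finset.disjoint_left.mp hAB) hy hb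
  by_cases hUB : 2 * (B.image un).card ≤ n
  · obtain ⟨x, hx, y, hy, a, ha, hxy, hun, hcol⟩ := hcc B A hB hA hAB.symm hUB
    refine ⟨a, ha, x, hx, y, Or.inr ?_, Or.inr hy, ?_, hxy.symm⟩
    · rw [Sym2.eq_swap]
      exact ⟨x, a, rfl, hun.symm, hcol⟩
    · rintro rfl
      exact (Finset.disjoint_left.mp hAB) ha hy
  obtain ⟨P, hP1, hP2⟩ := exists_partners un j A
  obtain ⟨Q, hQ1, hQ2⟩ := exists_partners un j B
  obtain ⟨P', hP', hPc⟩ := Finset.exists_subset_card_eq (s := P) (n := q) (by omega)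
  obtain ⟨Q', hQ', hQc⟩ := Finset.exists_subset_card_eq (s := Q) (n := q) (by omega)
  obtain ⟨u, hu, v, hv, h⟩ := hκ P' Q' hPc hQc
  obtain ⟨a, ha, a', ha', rfl, hne, hR, hj⟩ := hP2 u (hP' hu)
  obtain ⟨b, hb, b', hb', rfl, hne', hR', hj'⟩ := hQ2 v (hQ' hv)
  rcases h with ⟨h1, h2⟩ | ⟨h1, h2⟩
  · refine ⟨a', ha', b, hb, a, Or.inl ⟨a', b, rfl, ?_, hR, hj, ?_⟩, Or.inl ha, hne, ?_⟩
    · rw [← hR]; exact h1
    · rw [← hR]; exact h2.symm
    · rintro rfl
      exact (Finset.disjoint_left.mp hAB) ha hb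
  · refine ⟨a, ha, b', hb', b, Or.inl ⟨b', a, Sym2.eq_swap, ?_, hR', hj', ?_⟩, Or.inr hb, ?_, hne'⟩
    · rw [← hR']; exact h1
    · rw [← hR']; exact h2.symm
    · rintro rfl
      exact (Finset.disjoint_left.mp hAB) ha hb

end Pool.Agent.H78.SM
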