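import Mathlib

namespace Pool.Agent.H78.SM

theorem cond1 {m s n N : ℕ} (hm : 0 < m) (hs : 0 < s) (hn : 0 < n) (hNm : N ≤ m * m)
    (h : 16 * (s : ℝ) * Real.log m < n) :
    ((N : ℝ) ^ n * (N : ℝ) ^ n) * Real.exp (-(((n : ℝ) ^ 2 / 2) / (2 * s))) < 1 := by
  have hm' : (0 : ℝ) < m := by exact_mod_cast hm
  have hs' : (0 : ℝ) < s := by exact_mod_cast hs
  have hn' : (0 : ℝ) < n := by exact_mod_cast hn
  have h1 : (N : ℝ) ≤ (m : ℝ) ^ 2 := by
    have : (N : ℝ) ≤ ((m * m : ℕ) : ℝ) := by exact_mod_cast hNm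
    rw [Nat.cast_mul] at this
    nlinarith
  have h2 : (N : ℝ) ^ n * (N : ℝ) ^ n ≤ Real.exp (4 * n * Real.log m) := by
    have h3 : (N : ℝ) ^ n ≤ ((m : ℝ) ^ 2) ^ n := pow_le_pow_left₀ (Nat.cast_nonneg _) h1 n
    have h4 : Real.exp (4 * n * Real.log m) = ((m : ℝ) ^ 2) ^ n * ((m : ℝ) ^ 2) ^ n := by
      have h5 : (m : ℝ) = Real.exp (Real.log m) := (Real.exp_log hm').symm
      rw [← pow_mul, ← pow_add]
      conv_rhs => rw [h5]
      rw [← Real.exp_nat_mul]
      congr 1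
      push_cast
      ring
    rw [h4]
    exact mul_le_mul h3 h3 (by positivity) (by positivity)
  calc ((N : ℝ) ^ n * (N : ℝ) ^ n) * Real.exp (-(((n : ℝ) ^ 2 / 2) / (2 * s)))
      ≤ Real.exp (4 * n * Real.log m) * Real.exp (-(((n : ℝ) ^ 2 / 2) / (2 * s))) := by gcongr
    _ = Real.exp (4 * n * Real.log m - ((n : ℝ) ^ 2 / 2) / (2 * s)) := by
        rw [← Real.exp_add]; congr 1
    _ < 1 := by
        rw [Real.exp_lt_one_iff]
        have h6 : ((n : ℝ) ^ 2 / 2) / (2 * s) = (n : ℝ) * (n / (4 * s)) := by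
          field_simp; ring
        rw [h6]
        have h7 : 4 * Real.log m < n / (4 * s) := by
          rw [lt_div_iff₀ (by positivity)]
          nlinarith
        nlinarith

theorem cond2 {m G q : ℕ} (hm : 0 < m) (hG : 0 < G) (hq : 2 * m ≤ q)
    (h : 8 * (m : ℝ) * Real.log (2 * G) < q) :
    (((m * G).choose q : ℝ) * ((m * G).choose q : ℝ)) *
      Real.exp (-(((q : ℝ) ^ 2 / 4) / m)) < 1 := by
  have hm' : (0 : ℝ) < m := by exact_mod_cast hm
  have hG' : (0 : ℝ) < G := by exact_mod_cast hG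
  have hq0 : 0 < q := by omega
  have hq' : (0 : ℝ) < q := by exact_mod_cast hq0
  have h1 : ((m * G).choose q : ℝ) ≤ Real.exp (q * Real.log (2 * G)) := by
    have h2 : ((m * G).choose q : ℝ) ≤ ((m * G : ℕ) : ℝ) ^ q / (q.factorial : ℝ) :=
      Nat.choose_le_pow_div q (m * G)
    have h3 : ((q : ℝ) ^ q) / (q.factorial : ℝ) ≤ Real.exp q :=
      Real.pow_div_factorial_le_exp (q : ℝ) hq'.le q
    have h4 : (0 : ℝ) < (q.factorial : ℝ) := by exact_mod_cast q.factorial_pos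
    have h5 : Real.exp (q * Real.log (2 * G)) = (2 * (G : ℝ)) ^ q := by
      rw [← Real.log_pow, Real.exp_log (by positivity)]
    have h6 : ((m * G : ℕ) : ℝ) ^ q / (q.factorial : ℝ) =
        (((m * G : ℕ) : ℝ) / q) ^ q * (((q : ℝ) ^ q) / (q.factorial : ℝ)) := by
      rw [div_pow]; field_simp
    have h7 : (((m * G : ℕ) : ℝ) / q) ≤ (G : ℝ) / 2 := by
      rw [div_le_div_iff₀ hq' (by norm_num)]
      push_cast
      have : (2 * (m : ℝ)) ≤ q := by exact_mod_cast hq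
      nlinarith
    have h8 : Real.exp (q : ℝ) = (Real.exp 1) ^ q := by
      rw [← Real.exp_nat_mul]; congr 1; ring
    rw [h5]
    calc ((m * G).choose q : ℝ) ≤ ((m * G : ℕ) : ℝ) ^ q / (q.factorial : ℝ) := h2
      _ = (((m * G : ℕ) : ℝ) / q) ^ q * (((q : ℝ) ^ q) / (q.factorial : ℝ)) := h6
      _ ≤ ((G : ℝ) / 2) ^ q * Real.exp q := by gcongr
      _ = ((G : ℝ) / 2 * Real.exp 1) ^ q := by rw [h8, mul_pow]
      _ ≤ (2 * (G : ℝ)) ^ q := by
          apply pow_le_pow_left₀ (by positivity)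
          have := Real.exp_one_lt_d9
          nlinarith
  have h9 : (0 : ℝ) ≤ ((m * G).choose q : ℝ) := Nat.cast_nonneg _
  calc (((m * G).choose q : ℝ) * ((m * G).choose q : ℝ)) * Real.exp (-(((q : ℝ) ^ 2 / 4) / m))
      ≤ (Real.exp (q * Real.log (2 * G)) * Real.exp (q * Real.log (2 * G))) *
        Real.exp (-(((q : ℝ) ^ 2 / 4) / m)) := by gcongr
    _ = Real.exp (2 * (q * Real.log (2 * G)) - ((q : ℝ) ^ 2 / 4) / m) := by
        rw [← Real.exp_add, ← Real.exp_add]; congr 1; ring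
    _ < 1 := by
        rw [Real.exp_lt_one_iff]
        have h10 : ((q : ℝ) ^ 2 / 4) / m = (q : ℝ) * (q / (4 * m)) := by
          field_simp
        rw [h10]
        have h11 : 2 * Real.log (2 * G) < q / (4 * m) := by
          rw [lt_div_iff₀ (by positivity)]
          nlinarith
        nlinarith

theorem exists_params (n : ℕ) (hL : 3 ≤ Real.log n) (hn : 256 * (Real.log n + 1) ^ 2 ≤ n) :
    ∃ m G s q : ℕ, 0 < m ∧ 0 < G ∧ 0 < s ∧ m * G * s ≤ n * n ∧ 2 * m ≤ q ∧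
      2 * (q + G * s) ≤ n ∧
      16 * (s : ℝ) * Real.log n < n ∧ 8 * (m : ℝ) * Real.log (2 * G) < q ∧
      (n : ℝ) ^ 2 / (16384 * Real.log (Real.log n)) ≤ (m : ℝ) * (G * s) := by
  set L : ℝ := Real.log n with hLdef
  set G : ℕ := ⌈L⌉₊ with hG
  have hG1 : L ≤ G := Nat.le_ceil L
  have hG2 : (G : ℝ) < L + 1 := Nat.ceil_lt_add_one (by linarith)
  have hG0 : (0 : ℝ) < G := by linarith
  have hGpos : 0 < G := by exact_mod_cast hG0
  set Λ : ℝ := Real.log (2 * G) with hΛ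
  have hlogL : 1 < Real.log L := by
    rw [Real.lt_log_iff_exp_lt (by linarith)]
    have := Real.exp_one_lt_d9
    linarith
  have hΛ1 : 1 < Λ := by
    calc 1 < Real.log L := hlogL
      _ ≤ Λ := Real.log_le_log (by linarith) (by linarith)
  have hΛ2 : Λ ≤ 2 * Real.log L := by
    have h1 : 2 * Real.log L = Real.log (L ^ 2) := by
      rw [Real.log_pow]; push_cast; ring
    rw [h1]
    apply Real.log_le_log (by positivity)
    nlinarith
  have hΛ3 : Λ ≤ 2 * (L + 1) := by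
    have := Real.log_le_sub_one_of_pos (show (0 : ℝ) < 2 * G by positivity)
    rw [← hΛ] at this
    linarith
  have hn0 : (0 : ℝ) < n := by nlinarith
  have hn1024 : (1024 : ℝ) ≤ n := by nlinarith
  have hn1024' : 1024 ≤ n := by exact_mod_cast hn1024
  have hnG : 64 * (G : ℝ) ≤ n := by nlinarith
  have hnΛ : 128 * Λ ≤ n := by nlinarith
  set s : ℕ := ⌊(n : ℝ) / (32 * G)⌋₊ with hs
  have hs1 : (s : ℝ) ≤ (n : ℝ) / (32 * G) := Nat.floor_le (by positivity)
  have hs2 : (n : ℝ) / (32 * G) < s + 1 := Nat.lt_floor_add_one _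
  have hs3 : (2 : ℝ) ≤ (n : ℝ) / (32 * G) := by
    rw [le_div_iff₀ (by positivity)]; linarith
  have hspos : 0 < s := by
    have : (0 : ℝ) < s := by linarith
    exact_mod_cast this
  set m : ℕ := ⌊(n : ℝ) / (64 * Λ)⌋₊ with hm
  have hm1 : (m : ℝ) ≤ (n : ℝ) / (64 * Λ) := Nat.floor_le (by positivity)
  have hm2 : (n : ℝ) / (64 * Λ) < m + 1 := Nat.lt_floor_add_one _
  have hm3 : (2 : ℝ) ≤ (n : ℝ) / (64 * Λ) := by
    rw [le_div_iff₀ (by positivity)]; linarith
  have hmpos : 0 < m := by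
    have : (0 : ℝ) < m := by linarith
    exact_mod_cast this
  have hs0 : (0 : ℝ) ≤ (s : ℝ) := Nat.cast_nonneg _
  have hm0 : (0 : ℝ) ≤ (m : ℝ) := Nat.cast_nonneg _
  have hGs : (G : ℝ) * s ≤ n / 32 := by
    calc (G : ℝ) * s ≤ G * ((n : ℝ) / (32 * G)) := by gcongr
      _ = n / 32 := by field_simp
  have hGs' : (n : ℝ) / 64 ≤ (G : ℝ) * s := by
    have h1 : (n : ℝ) / (32 * G) / 2 ≤ s := by linarith
    calc (n : ℝ) / 64 = G * ((n : ℝ) / (32 * G) / 2) := by field_simp; ring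
      _ ≤ G * s := by gcongr
  have hGsn : 32 * (G * s) ≤ n := by
    have : (32 : ℝ) * ((G : ℝ) * s) ≤ n := by linarith
    exact_mod_cast this
  have hmΛ : (m : ℝ) * Λ ≤ n / 64 := by
    calc (m : ℝ) * Λ ≤ (n : ℝ) / (64 * Λ) * Λ := by gcongr
      _ = n / 64 := by field_simp
  have hmn : (m : ℝ) ≤ n / 64 := by nlinarith
  have hmn' : 64 * m ≤ n := by
    have : (64 : ℝ) * (m : ℝ) ≤ n := by linarith
    exact_mod_cast this
  refine ⟨m, G, s, n / 4, hmpos, hGpos, hspos, ?_, by omega, by omega, ?_, ?_, ?_⟩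
  · rw [mul_assoc]
    exact Nat.mul_le_mul (by omega) (by omega)
  · have h3 : (s : ℝ) * G ≤ n / 32 := by linarith [mul_comm (s : ℝ) G]
    nlinarith
  · have h1 : (n : ℝ) / 8 < ((n / 4 : ℕ) : ℝ) := by
      have h2 : n < 8 * (n / 4) := by omega
      have h3 : (n : ℝ) < ((8 * (n / 4) : ℕ) : ℝ) := by exact_mod_cast h2
      rw [Nat.cast_mul] at h3
      push_cast at h3 ⊢
      linarith
    nlinarith
  · have hm4 : (n : ℝ) / (256 * Real.log L) ≤ m := by
      calc (n : ℝ) / (256 * Real.log L) ≤ (n : ℝ) / (128 * Λ) := by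
            apply div_le_div_of_nonneg_left hn0.le (by positivity)
            linarith
        _ = (n : ℝ) / (64 * Λ) / 2 := by field_simp; ring
        _ ≤ m := by linarith
    calc (n : ℝ) ^ 2 / (16384 * Real.log L) = (n : ℝ) / (256 * Real.log L) * (n / 64) := by
          field_simp; norm_num
      _ ≤ (m : ℝ) * (G * s) := by
          apply mul_le_mul hm4 hGs' (by positivity) hm0

end Pool.Agent.H78.SM
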