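import Pool.Agent.H78.SM.Defs

namespace Pool.Agent.H78.SM

open Finset

/-- The probability that a random function hits, in a coordinate `l`, a set of at most `c`
values which does not depend on this coordinate, is at most `c / N`. -/
theorem card_hit_le {k N c : ℕ} (l : Fin k) (Bf : (Fin k → Fin N) → Finset (Fin N))
    (hinv : ∀ σ z, Bf (Function.update σ l z) = Bf σ) (hc : ∀ σ, (Bf σ).card ≤ c) :
    N * (Finset.univ.filter (fun σ : Fin k → Fin N => σ l ∈ Bf σ)).card ≤ c * N ^ k := by
  classical
  have h1 : ((Finset.univ.filter (fun σ : Fin k → Fin N => σ l ∈ Bf σ)) ×ˢ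
      (Finset.univ : Finset (Fin N))).card ≤
      ((Finset.univ : Finset (Fin k → Fin N)).sigma (fun σ => Bf σ)).card := by
    apply Finset.card_le_card_of_injOn
      (fun p => (⟨Function.update p.1 l p.2, p.1 l⟩ : Σ _ : Fin k → Fin N, Fin N))
    · intro p hp
      rw [Finset.mem_coe, Finset.mem_product, Finset.mem_filter] at hp
      rw [Finset.mem_coe, Finset.mem_sigma]
      refine ⟨Finset.mem_univ _, ?_⟩
      simp only [hinv]
      exact hp.1.2
    · intro p _ p' _ hpp
      simp only [Sigma.mk.injEq, heq_eq_eq] at hpp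
      obtain ⟨h2, h3⟩ := hpp
      have h4 : p.2 = p'.2 := by
        have := congrFun h2 l
        simpa using this
      have h5 : p.1 = p'.1 := by
        funext i
        by_cases hi : i = l
        · rw [hi, h3]
        · have := congrFun h2 i
          simpa [Function.update_of_ne hi] using this
      exact Prod.ext h5 h4
  rw [Finset.card_product, Finset.card_univ, Fintype.card_fin, Finset.card_sigma] at h1
  calc N * (Finset.univ.filter (fun σ : Fin k → Fin N => σ l ∈ Bf σ)).card
      = (Finset.univ.filter (fun σ : Fin k → Fin N => σ l ∈ Bf σ)).card * N := by ring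
    _ ≤ ∑ σ : Fin k → Fin N, (Bf σ).card := h1
    _ ≤ ∑ _σ : Fin k → Fin N, c := Finset.sum_le_sum (fun σ _ => hc σ)
    _ = c * N ^ k := by
        rw [Finset.sum_const, Finset.card_univ, Fintype.card_fun, Fintype.card_fin,
          Fintype.card_fin, smul_eq_mul]
        ring

/-- The vertices forbidden by the pair `x, y`. -/
noncomputable def forb {N : ℕ} (f : Edge N → Edge N) (x y : Fin N) : Finset (Fin N) := by
  classical
  exact insert x (Finset.univ.filter (fun z => ∃ e : Edge N, e.1 = s(x, y) ∧ z ∈ (f e).1))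

theorem card_forb_le {N : ℕ} (f : Edge N → Edge N) (x y : Fin N) : (forb f x y).card ≤ 3 := by
  classical
  rw [forb]
  have h : (Finset.univ.filter
      (fun z => ∃ e : Edge N, e.1 = s(x, y) ∧ z ∈ (f e).1)).card ≤ 2 := by
    by_cases hxy : ∃ e : Edge N, e.1 = s(x, y)
    · obtain ⟨e, he⟩ := hxy
      have h1 : ∃ a b, (f e).1 = s(a, b) := by
        induction h : (f e).1 using Sym2.ind with
        | _ a b => exact ⟨a, b, rfl⟩
      obtain ⟨a, b, hab⟩ := h1
      have h2 : (Finset.univ.filter
          (fun z => ∃ e : Edge N, e.1 = s(x, y) ∧ z ∈ (f e).1)) ⊆ {a, b} := by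
        intro z hz
        rw [Finset.mem_filter] at hz
        obtain ⟨-, e', he', hz'⟩ := hz
        have : e' = e := Subtype.ext (he'.trans he.symm)
        rw [this, hab] at hz'
        simpa using hz'
      exact (Finset.card_le_card h2).trans Finset.card_le_two
    · have : (Finset.univ.filter
          (fun z => ∃ e : Edge N, e.1 = s(x, y) ∧ z ∈ (f e).1)) = ∅ := by
        rw [Finset.filter_eq_empty_iff]
        rintro z - ⟨e, he, -⟩
        exact hxy ⟨e, he⟩
      rw [this]; simp
  have := Finset.card_insert_le x (Finset.univ.filter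
      (fun z => ∃ e : Edge N, e.1 = s(x, y) ∧ z ∈ (f e).1))
  omega

theorem hasGoodCopies_of_le {W : Type*} [Fintype W] (G : SimpleGraph W) {N : ℕ}
    (hW : 0 < Fintype.card W) (hN : 24 * Fintype.card W ^ 2 ≤ N) : HasGoodCopies G N := by
  classical
  set v := Fintype.card W with hv
  refine ⟨by nlinarith, fun f hf => ?_⟩
  set k := 2 * v with hk
  set Lb : (Fin k → Fin N) → Finset (Fin k) := fun σ =>
    Finset.univ.filter (fun l => ∃ i j : Fin k, i ≠ l ∧ j ≠ l ∧ σ l ∈ forb f (σ i) (σ j))
    with hLb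
  have hex : ∃ σ : Fin k → Fin N, (Lb σ).card ≤ v := by
    by_contra hcon
    push Not at hcon
    have h1 : (v + 1) * N ^ k ≤ ∑ σ : Fin k → Fin N, (Lb σ).card := by
      calc (v + 1) * N ^ k = ∑ _σ : Fin k → Fin N, (v + 1) := by
            rw [Finset.sum_const, Finset.card_univ, Fintype.card_fun, Fintype.card_fin,
              Fintype.card_fin, smul_eq_mul]
            ring
        _ ≤ _ := Finset.sum_le_sum (fun σ _ => hcon σ)
    have h2 : ∑ σ : Fin k → Fin N, (Lb σ).card =
        ∑ l : Fin k, (Finset.univ.filter (fun σ : Fin k → Fin N => l ∈ Lb σ)).card := by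
      have h3 : ∀ σ : Fin k → Fin N, (Lb σ).card = ∑ l : Fin k, if l ∈ Lb σ then 1 else 0 := by
        intro σ
        rw [Finset.sum_ite_mem, Finset.univ_inter, Finset.sum_const, smul_eq_mul, mul_one]
      rw [Finset.sum_congr rfl (fun σ _ => h3 σ), Finset.sum_comm]
      apply Finset.sum_congr rfl
      intro l _
      rw [Finset.card_filter]
    have h4 : ∀ l : Fin k,
        (Finset.univ.filter (fun σ : Fin k → Fin N => l ∈ Lb σ)).card ≤
        ∑ p : Fin k × Fin k, (Finset.univ.filter (fun σ : Fin k → Fin N =>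
          p.1 ≠ l ∧ p.2 ≠ l ∧ σ l ∈ forb f (σ p.1) (σ p.2))).card := by
      intro l
      have h5 : (Finset.univ.filter (fun σ : Fin k → Fin N => l ∈ Lb σ)) ⊆
          (Finset.univ : Finset (Fin k × Fin k)).biUnion (fun p =>
            Finset.univ.filter (fun σ : Fin k → Fin N =>
              p.1 ≠ l ∧ p.2 ≠ l ∧ σ l ∈ forb f (σ p.1) (σ p.2))) := by
        intro σ hσ
        rw [Finset.mem_filter, hLb, Finset.mem_filter] at hσ
        obtain ⟨-, -, i, j, hij⟩ := hσ
        rw [Finset.mem_biUnion]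
        exact ⟨(i, j), Finset.mem_univ _, Finset.mem_filter.mpr ⟨Finset.mem_univ _, hij⟩⟩
      exact (Finset.card_le_card h5).trans Finset.card_biUnion_le
    have h6 : ∀ (l : Fin k) (p : Fin k × Fin k),
        N * (Finset.univ.filter (fun σ : Fin k → Fin N =>
          p.1 ≠ l ∧ p.2 ≠ l ∧ σ l ∈ forb f (σ p.1) (σ p.2))).card ≤ 3 * N ^ k := by
      intro l p
      by_cases hp : p.1 ≠ l ∧ p.2 ≠ l
      · have h7 := card_hit_le (c := 3) l (fun σ => forb f (σ p.1) (σ p.2))
          (fun σ z => by
            simp only [Function.update_of_ne hp.1, Function.update_of_ne hp.2])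
          (fun σ => card_forb_le _ _ _)
        have h8 : (Finset.univ.filter (fun σ : Fin k → Fin N =>
            p.1 ≠ l ∧ p.2 ≠ l ∧ σ l ∈ forb f (σ p.1) (σ p.2))) =
            (Finset.univ.filter (fun σ : Fin k → Fin N =>
              σ l ∈ forb f (σ p.1) (σ p.2))) := by
          apply Finset.filter_congr
          intro σ _
          exact ⟨fun h => h.2.2, fun h => ⟨hp.1, hp.2, h⟩⟩
        rw [h8]
        exact h7
      · have h8 : (Finset.univ.filter (fun σ : Fin k → Fin N =>
            p.1 ≠ l ∧ p.2 ≠ l ∧ σ l ∈ forb f (σ p.1) (σ p.2))) = ∅ := by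
          rw [Finset.filter_eq_empty_iff]
          rintro σ - ⟨h9, h10, -⟩
          exact hp ⟨h9, h10⟩
        rw [h8]; simp
    have h9 : N * ∑ σ : Fin k → Fin N, (Lb σ).card ≤ 3 * k ^ 3 * N ^ k := by
      rw [h2]
      calc N * ∑ l : Fin k, (Finset.univ.filter (fun σ : Fin k → Fin N => l ∈ Lb σ)).card
          ≤ N * ∑ l : Fin k, ∑ p : Fin k × Fin k,
            (Finset.univ.filter (fun σ : Fin k → Fin N =>
              p.1 ≠ l ∧ p.2 ≠ l ∧ σ l ∈ forb f (σ p.1) (σ p.2))).card :=
            Nat.mul_le_mul_left _ (Finset.sum_le_sum (fun l _ => h4 l))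
        _ = ∑ l : Fin k, ∑ p : Fin k × Fin k,
            N * (Finset.univ.filter (fun σ : Fin k → Fin N =>
              p.1 ≠ l ∧ p.2 ≠ l ∧ σ l ∈ forb f (σ p.1) (σ p.2))).card := by
            rw [Finset.mul_sum]
            exact Finset.sum_congr rfl (fun l _ => by rw [Finset.mul_sum])
        _ ≤ ∑ _l : Fin k, ∑ _p : Fin k × Fin k, 3 * N ^ k :=
            Finset.sum_le_sum (fun l _ => Finset.sum_le_sum (fun p _ => h6 l p))
        _ = 3 * k ^ 3 * N ^ k := by
            simp only [Finset.sum_const, Finset.card_univ, Fintype.card_prod, Fintype.card_fin,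
              smul_eq_mul]
            ring
    have hNpos : 0 < N := by nlinarith
    have hNk : 0 < N ^ k := Nat.pow_pos hNpos
    have h10 : N * ((v + 1) * N ^ k) ≤ 3 * k ^ 3 * N ^ k :=
      (Nat.mul_le_mul_left _ h1).trans h9
    have h11 : N * (v + 1) ≤ 3 * k ^ 3 := by
      apply Nat.le_of_mul_le_mul_right _ hNk
      calc N * (v + 1) * N ^ k = N * ((v + 1) * N ^ k) := by ring
        _ ≤ _ := h10
    have h12 : 3 * k ^ 3 = 24 * v ^ 3 := by rw [hk]; ring
    have h13 : 24 * v ^ 2 * (v + 1) ≤ N * (v + 1) := Nat.mul_le_mul_right _ hN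
    have h14 : 24 * v ^ 2 * (v + 1) = 24 * v ^ 3 + 24 * v ^ 2 := by ring
    have h15 : 0 < 24 * v ^ 2 := by positivity
    omega
  obtain ⟨σ, hσ⟩ := hex
  have hI : Fintype.card W ≤ Fintype.card {l : Fin k // l ∉ Lb σ} := by
    rw [Fintype.card_subtype_compl, Fintype.card_coe, Fintype.card_fin]
    omega
  obtain ⟨ι⟩ := Function.Embedding.nonempty_of_card_le hI
  have hι : ∀ w i j : W, i ≠ w → j ≠ w → σ (ι w).1 ∉ forb f (σ (ι i).1) (σ (ι j).1) := by
    intro w i j hi hj hmem
    apply (ι w).2
    refine Finset.mem_filter.mpr ⟨Finset.mem_univ _, (ι i).1, (ι j).1, ?_, ?_, hmem⟩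
    · intro h; exact hi (ι.injective (Subtype.ext h))
    · intro h; exact hj (ι.injective (Subtype.ext h))
  refine ⟨⟨fun w => σ (ι w).1, ?_⟩, ?_⟩
  · intro w w' hww
    by_contra hne
    have h1 := hι w w' w' (Ne.symm hne) (Ne.symm hne)
    apply h1
    have hww' : σ (ι w).1 = σ (ι w').1 := hww
    rw [hww', forb]
    exact Finset.mem_insert_self _ _
  · intro a b hab e he x hx
    have he' : e.1 = s(σ (ι a).1, σ (ι b).1) := he
    have hx' : σ (ι x).1 ∈ (f e).1 := hx
    by_cases hxa : a = x
    · subst hxa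
      exact hf e _ (by rw [he']; simp) hx'
    by_cases hxb : b = x
    · subst hxb
      exact hf e _ (by rw [he']; simp) hx'
    apply hι x a b hxa hxb
    rw [forb]
    apply Finset.mem_insert_of_mem
    exact Finset.mem_filter.mpr ⟨Finset.mem_univ _, e, he', hx'⟩

end Pool.Agent.H78.SM
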