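import Pool.Agent.H78.SM.Bad
import Pool.Agent.H78.SM.Params
import Pool.Agent.H78.SM.Upper

namespace Pool.Agent.H78.SM

open Filter Asymptotics

theorem card_sum_fin (n : ℕ) : Fintype.card (Fin n ⊕ Fin n) = 2 * n := by
  rw [Fintype.card_sum, Fintype.card_fin]; ring

theorem hasGoodCopies_setMapping (n : ℕ) (hn : 0 < n) :
    HasGoodCopies (completeBipartiteGraph (Fin n) (Fin n))
      (setMapping (completeBipartiteGraph (Fin n) (Fin n))) := by
  have h : (24 * Fintype.card (Fin n ⊕ Fin n) ^ 2) ∈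
      {N : ℕ | HasGoodCopies (completeBipartiteGraph (Fin n) (Fin n)) N} :=
    hasGoodCopies_of_le _ (by rw [card_sum_fin]; omega) le_rfl
  exact Nat.sInf_mem ⟨_, h⟩

theorem setMapping_le (n : ℕ) (hn : 0 < n) :
    setMapping (completeBipartiteGraph (Fin n) (Fin n)) ≤ 96 * n ^ 2 := by
  apply Nat.sInf_le
  apply hasGoodCopies_of_le _ (by rw [card_sum_fin]; omega)
  rw [card_sum_fin]
  exact le_of_eq (by ring)

theorem lower_of_large (n : ℕ) (hL : 3 ≤ Real.log n) (hn : 256 * (Real.log n + 1) ^ 2 ≤ n) :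
    1 / 16384 * (n : ℝ) ^ 2 / Real.log (Real.log n) ≤
      (setMapping (completeBipartiteGraph (Fin n) (Fin n)) : ℝ) := by
  have hn0 : (0 : ℝ) < n := by nlinarith
  have hn1 : (256 : ℝ) ≤ n := by nlinarith
  have hnpos : 0 < n := by exact_mod_cast hn0
  have hn2 : 256 ≤ n := by exact_mod_cast hn1
  obtain ⟨m, G, s, q, hm, hG, hs, hmn, hq, hqn, h1, h2, h3⟩ := exists_params n hL hn
  obtain ⟨hcard, hgood⟩ := hasGoodCopies_setMapping n hnpos
  set N := setMapping (completeBipartiteGraph (Fin n) (Fin n)) with hN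
  rw [card_sum_fin] at hcard
  have hlt : m * G * s ≤ N := by
    by_contra hcon
    push Not at hcon
    obtain ⟨f, hf, hbad⟩ := exists_bad (m := m) (G := G) (s := s) (n := n) (q := q) (N := N)
      (by omega) hcon.le hm hs hq hqn
      (cond1 hnpos hs hnpos (hcon.le.trans hmn) h1) (cond2 hm hG hq h2)
    obtain ⟨φ, hφ⟩ := hgood f hf
    exact hbad φ hφ
  have h4 : (m : ℝ) * (G * s) ≤ N := by
    have : ((m * G * s : ℕ) : ℝ) ≤ N := by exact_mod_cast hlt
    push_cast at this
    linarith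
  calc 1 / 16384 * (n : ℝ) ^ 2 / Real.log (Real.log n)
      = (n : ℝ) ^ 2 / (16384 * Real.log (Real.log n)) := by
        rw [div_mul_eq_div_div]; ring
    _ ≤ (m : ℝ) * (G * s) := h3
    _ ≤ N := h4

theorem eventually_lower : ∀ᶠ n : ℕ in atTop,
    1 / 16384 * (n : ℝ) ^ 2 / Real.log (Real.log n) ≤
      (setMapping (completeBipartiteGraph (Fin n) (Fin n)) : ℝ) := by
  have h1 : ∀ᶠ x : ℝ in atTop, 3 ≤ Real.log x :=
    Real.tendsto_log_atTop.eventually_ge_atTop 3
  have h2 : ∀ᶠ x : ℝ in atTop, 256 * (Real.log x + 1) ^ 2 ≤ x := by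
    have h3 := (Real.isLittleO_pow_log_id_atTop (n := 2)).bound (show (0 : ℝ) < 1 / 1024 by norm_num)
    filter_upwards [h3, h1, eventually_gt_atTop 0] with x hx hx1 hx0
    rw [Real.norm_of_nonneg (by positivity)] at hx
    simp only [id] at hx
    rw [Real.norm_of_nonneg hx0.le] at hx
    nlinarith
  filter_upwards [tendsto_natCast_atTop_atTop.eventually h1,
    tendsto_natCast_atTop_atTop.eventually h2] with n hn1 hn2
  exact lower_of_large n hn1 hn2

theorem not_isBigO : ¬ (fun n : ℕ =>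
      (setMapping (completeBipartiteGraph (Fin n) (Fin n)) : ℝ)) =O[atTop]
        (fun n : ℕ => (n : ℝ) ^ 2 / Real.log n) := by
  intro h
  obtain ⟨C, hC, hb⟩ := h.exists_pos
  rw [IsBigOWith] at hb
  have h1 : ∀ᶠ x : ℝ in atTop, 3 ≤ Real.log x :=
    Real.tendsto_log_atTop.eventually_ge_atTop 3
  have h3 := Real.isLittleO_log_id_atTop.bound
    (show (0 : ℝ) < 1 / (32768 * C) by positivity)
  have h4 : ∀ᶠ x : ℝ in atTop, ‖Real.log (Real.log x)‖ ≤
      1 / (32768 * C) * ‖id (Real.log x)‖ := Real.tendsto_log_atTop.eventually h3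
  obtain ⟨n, hn1, hn2, hn3, hn4⟩ := ((tendsto_natCast_atTop_atTop.eventually h1).and
    ((tendsto_natCast_atTop_atTop.eventually h4).and (eventually_lower.and hb))).exists
  have hL : 0 < Real.log n := by linarith
  have hLL : 0 < Real.log (Real.log n) := Real.log_pos (by linarith)
  have hn0 : (0 : ℝ) < n := by
    rcases (Nat.cast_nonneg (α := ℝ) n).lt_or_eq with h | h
    · exact h
    · exfalso
      rw [← h, Real.log_zero] at hn1
      norm_num at hn1
  rw [Real.norm_of_nonneg (Nat.cast_nonneg _), Real.norm_of_nonneg (by positivity)] at hn4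
  rw [Real.norm_of_nonneg hLL.le, id, Real.norm_of_nonneg hL.le] at hn2
  have h5 : 1 / 16384 * (n : ℝ) ^ 2 / Real.log (Real.log n) ≤
      C * ((n : ℝ) ^ 2 / Real.log n) := hn3.trans hn4
  rw [div_le_iff₀ (by positivity)] at h5
  have h6 : C * ((n : ℝ) ^ 2 / Real.log n) * Real.log (Real.log n) ≤
      C * ((n : ℝ) ^ 2 / Real.log n) * (1 / (32768 * C) * Real.log n) := by
    apply mul_le_mul_of_nonneg_left hn2 (by positivity)
  have h7 : C * ((n : ℝ) ^ 2 / Real.log n) * (1 / (32768 * C) * Real.log n) =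
      1 / 32768 * (n : ℝ) ^ 2 := by
    field_simp
  have h8 : (0 : ℝ) < (n : ℝ) ^ 2 := by positivity
  rw [h7] at h6
  linarith

end Pool.Agent.H78.SM
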