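import Pool.Agent.H78.SM.U

namespace Pool.Agent.H78.SM

open Finset

/-- Pairs `(u, v)` of units with `u` in an earlier group than `v`. -/
def pairsLt {m G : ℕ} (P Q : Finset (Fin m × Fin G)) :
    Finset ((Fin m × Fin G) × (Fin m × Fin G)) :=
  (P ×ˢ Q).filter (fun z => z.1.2 < z.2.2)

theorem card_pairsLt_add {m G : ℕ} (P Q : Finset (Fin m × Fin G)) :
    P.card * Q.card ≤ (pairsLt P Q).card + (pairsLt Q P).card + m * Q.card := by
  classical
  have h1 : (P ×ˢ Q) ⊆ (pairsLt P Q ∪ (pairsLt Q P).image Prod.swap) ∪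
      (P ×ˢ Q).filter (fun z => z.1.2 = z.2.2) := by
    intro z hz
    have hz' := Finset.mem_product.mp hz
    rcases lt_trichotomy z.1.2 z.2.2 with h | h | h
    · apply Finset.mem_union_left
      apply Finset.mem_union_left
      exact Finset.mem_filter.mpr ⟨hz, h⟩
    · apply Finset.mem_union_right
      exact Finset.mem_filter.mpr ⟨hz, h⟩
    · apply Finset.mem_union_left
      apply Finset.mem_union_right
      refine Finset.mem_image.mpr ⟨(z.2, z.1), ?_, rfl⟩
      exact Finset.mem_filter.mpr ⟨Finset.mem_product.mpr ⟨hz'.2, hz'.1⟩, h⟩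
  have h2 : ((P ×ˢ Q).filter (fun z => z.1.2 = z.2.2)).card ≤ m * Q.card := by
    have h3 : ((P ×ˢ Q).filter (fun z => z.1.2 = z.2.2)).card ≤
        ((Finset.univ : Finset (Fin m)) ×ˢ Q).card := by
      apply Finset.card_le_card_of_injOn (fun z => (z.1.1, z.2))
      · intro z hz
        have hz' := Finset.mem_product.mp (Finset.mem_filter.mp hz).1
        exact Finset.mem_product.mpr ⟨Finset.mem_univ _, hz'.2⟩
      · intro z hz w hw hzw
        have hz' := (Finset.mem_filter.mp hz).2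
        have hw' := (Finset.mem_filter.mp hw).2
        simp only [Prod.mk.injEq] at hzw
        obtain ⟨h4, h5⟩ := hzw
        have h6 : z.1.2 = w.1.2 := by rw [hz', hw', h5]
        exact Prod.ext (Prod.ext h4 h6) h5
    rwa [Finset.card_product, Finset.card_univ, Fintype.card_fin] at h3
  have h7 := Finset.card_le_card h1
  have h8 : (pairsLt P Q ∪ (pairsLt Q P).image Prod.swap).card ≤
      (pairsLt P Q).card + (pairsLt Q P).card :=
    (Finset.card_union_le _ _).trans (Nat.add_le_add_left Finset.card_image_le _)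
  have h9 := Finset.card_union_le (pairsLt P Q ∪ (pairsLt Q P).image Prod.swap)
    ((P ×ˢ Q).filter (fun z => z.1.2 = z.2.2))
  rw [Finset.card_product] at h7
  omega

/-- The first slot: a hub function `κ` such that any two sets of `q` units conflict. -/
theorem exists_slot1 {m G q : ℕ} (hm : 0 < m) (hq : 2 * m ≤ q)
    (hc : (((m * G).choose q : ℝ) * ((m * G).choose q : ℝ)) *
      Real.exp (-(((q : ℝ) ^ 2 / 4) / m)) < 1) :
    ∃ κ : Fin G × (Fin m × Fin G) → Fin m, ∀ P Q : Finset (Fin m × Fin G),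
      P.card = q → Q.card = q →
      ∃ u ∈ P, ∃ v ∈ Q, (u.2 < v.2 ∧ κ (u.2, v) = u.1) ∨ (v.2 < u.2 ∧ κ (v.2, u) = v.1) := by
  classical
  have : Nonempty (Fin m) := ⟨⟨0, hm⟩⟩
  set F : Finset (Finset (Fin m × Fin G) × Finset (Fin m × Fin G)) :=
    ((Finset.powersetCard q Finset.univ) ×ˢ (Finset.powersetCard q Finset.univ)).filter
      (fun t => q ^ 2 ≤ 4 * (pairsLt t.1 t.2).card) with hF
  set S : Finset (Fin m × Fin G) × Finset (Fin m × Fin G) → Fin G × (Fin m × Fin G) →
      Finset (Fin m) := fun t i =>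
    ((pairsLt t.1 t.2).filter (fun z => (z.1.2, z.2) = i)).image (fun z => z.1.1) with hS
  obtain ⟨κ, hκ⟩ := exists_hitting F S ((q : ℝ) ^ 2 / 4) (by
    intro t ht
    rw [hF, Finset.mem_filter] at ht
    have h1 : ∀ i, (S t i).card = ((pairsLt t.1 t.2).filter (fun z => (z.1.2, z.2) = i)).card := by
      intro i
      apply Finset.card_image_of_injOn
      intro z hz w hw hzw
      have hz' := (Finset.mem_filter.mp hz).2
      have hw' := (Finset.mem_filter.mp hw).2
      have h2 : (z.1.2, z.2) = (w.1.2, w.2) := by rw [hz', hw']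
      simp only [Prod.mk.injEq] at h2
      exact Prod.ext (Prod.ext hzw h2.1) h2.2
    have h2 : ∑ i, (S t i).card = (pairsLt t.1 t.2).card := by
      rw [Finset.sum_congr rfl (fun i _ => h1 i)]
      exact (Finset.card_eq_sum_card_fiberwise
        (f := fun z : (Fin m × Fin G) × (Fin m × Fin G) => (z.1.2, z.2))
        (t := Finset.univ) (fun e _ => by simp)).symm
    have h3 : (∑ i, ((S t i).card : ℝ)) = ((pairsLt t.1 t.2).card : ℝ) := by
      rw [← h2]; push_cast; rfl
    rw [h3]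
    have h4 : ((q ^ 2 : ℕ) : ℝ) ≤ ((4 * (pairsLt t.1 t.2).card : ℕ) : ℝ) := by
      exact_mod_cast ht.2
    push_cast at h4
    linarith) (by
    have h1 : (F.card : ℝ) ≤ ((m * G).choose q : ℝ) * ((m * G).choose q : ℝ) := by
      have h2 : F.card ≤ (m * G).choose q * (m * G).choose q := by
        calc F.card ≤ ((Finset.powersetCard q (Finset.univ : Finset (Fin m × Fin G))) ×ˢ
              (Finset.powersetCard q Finset.univ)).card := Finset.card_filter_le _ _
          _ = _ := by
              rw [Finset.card_product, Finset.card_powersetCard, Finset.card_univ,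
                Fintype.card_prod, Fintype.card_fin, Fintype.card_fin]
      exact_mod_cast h2
    rw [Fintype.card_fin]
    calc (F.card : ℝ) * Real.exp (-(((q : ℝ) ^ 2 / 4) / m))
        ≤ (((m * G).choose q : ℝ) * ((m * G).choose q : ℝ)) *
          Real.exp (-(((q : ℝ) ^ 2 / 4) / m)) := by gcongr
      _ < 1 := hc)
  have key : ∀ P Q : Finset (Fin m × Fin G), P.card = q → Q.card = q →
      q ^ 2 ≤ 4 * (pairsLt P Q).card →
      ∃ u ∈ P, ∃ v ∈ Q, u.2 < v.2 ∧ κ (u.2, v) = u.1 := by
    intro P Q hP hQ hPQ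
    obtain ⟨i, hi⟩ := hκ (P, Q) (by
      rw [hF, Finset.mem_filter, Finset.mem_product, Finset.mem_powersetCard,
        Finset.mem_powersetCard]
      exact ⟨⟨⟨Finset.subset_univ _, hP⟩, ⟨Finset.subset_univ _, hQ⟩⟩, hPQ⟩)
    rw [hS] at hi
    obtain ⟨z, hz, hzi⟩ := Finset.mem_image.mp hi
    rw [Finset.mem_filter] at hz
    obtain ⟨hz1, rfl⟩ := hz
    rw [pairsLt, Finset.mem_filter, Finset.mem_product] at hz1
    exact ⟨z.1, hz1.1.1, z.2, hz1.1.2, hz1.2, hzi.symm⟩
  refine ⟨κ, fun P Q hP hQ => ?_⟩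
  have h1 := card_pairsLt_add P Q
  rw [hP, hQ] at h1
  have h2 : 2 * (m * q) ≤ q * q := by nlinarith
  by_cases h3 : q ^ 2 ≤ 4 * (pairsLt P Q).card
  · obtain ⟨u, hu, v, hv, h4⟩ := key P Q hP hQ h3
    exact ⟨u, hu, v, hv, Or.inl h4⟩
  · have h4 : q ^ 2 ≤ 4 * (pairsLt Q P).card := by nlinarith
    obtain ⟨v, hv, u, hu, h5⟩ := key Q P hQ hP h4
    exact ⟨u, hu, v, hv, Or.inr h5⟩

end Pool.Agent.H78.SM
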