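import Mathlib

namespace Pool.Agent.H78.SM

open Finset

/-- Union bound for random functions from `I` to `β`: if every constraint `t` of a finite
family forbids values of total weight at least `L` and the family is not too large, then
some function takes a forbidden value for every constraint. -/
theorem exists_hitting {I β τ : Type*} [Fintype I] [DecidableEq I] [Fintype β] [DecidableEq β]
    [Nonempty β] (F : Finset τ) (S : τ → I → Finset β) (L : ℝ)
    (hL : ∀ t ∈ F, L ≤ ∑ i, ((S t i).card : ℝ))
    (hF : (F.card : ℝ) * Real.exp (-(L / Fintype.card β)) < 1) :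
    ∃ κ : I → β, ∀ t ∈ F, ∃ i, κ i ∈ S t i := by
  classical
  by_contra hcon
  push Not at hcon
  have hq : 0 < (Fintype.card β : ℝ) := by
    have := Fintype.card_pos (α := β)
    exact_mod_cast this
  have hbad : ∀ t ∈ F, ((Fintype.piFinset (fun i => (S t i)ᶜ)).card : ℝ) ≤
      (Fintype.card β : ℝ) ^ (Fintype.card I) * Real.exp (-(L / Fintype.card β)) := by
    intro t ht
    rw [Fintype.card_piFinset]
    push_cast
    have h1 : ∀ i, (((S t i)ᶜ).card : ℝ) ≤
        (Fintype.card β : ℝ) * Real.exp (-((S t i).card / (Fintype.card β : ℝ))) := by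
      intro i
      have h2 : (((S t i)ᶜ).card : ℝ) = (Fintype.card β : ℝ) - (S t i).card := by
        rw [Finset.card_compl, Nat.cast_sub (Finset.card_le_univ _)]
      have h3 : (1 : ℝ) - (S t i).card / (Fintype.card β : ℝ) ≤
          Real.exp (-((S t i).card / (Fintype.card β : ℝ))) := by
        have := Real.add_one_le_exp (-((S t i).card / (Fintype.card β : ℝ)))
        linarith
      have h4 : (Fintype.card β : ℝ) - (S t i).card =
          (Fintype.card β : ℝ) * (1 - (S t i).card / (Fintype.card β : ℝ)) := by
        field_simp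
      rw [h2, h4]
      exact mul_le_mul_of_nonneg_left h3 hq.le
    calc ∏ i, (((S t i)ᶜ).card : ℝ)
        ≤ ∏ i, ((Fintype.card β : ℝ) * Real.exp (-((S t i).card / (Fintype.card β : ℝ)))) :=
          Finset.prod_le_prod (fun i _ => by positivity) (fun i _ => h1 i)
      _ = (Fintype.card β : ℝ) ^ (Fintype.card I) *
          Real.exp (-((∑ i, ((S t i).card : ℝ)) / Fintype.card β)) := by
          rw [Finset.prod_mul_distrib, Finset.prod_const, ← Real.exp_sum, Finset.card_univ]
          congr 2
          rw [Finset.sum_neg_distrib, Finset.sum_div]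
      _ ≤ _ := by
          apply mul_le_mul_of_nonneg_left _ (by positivity)
          apply Real.exp_le_exp.mpr
          have := hL t ht
          have : L / Fintype.card β ≤ (∑ i, ((S t i).card : ℝ)) / Fintype.card β := by gcongr
          linarith
  have hcover : (Finset.univ : Finset (I → β)) ⊆
      F.biUnion (fun t => Fintype.piFinset (fun i => (S t i)ᶜ)) := by
    intro κ _
    obtain ⟨t, ht, h⟩ := hcon κ
    rw [Finset.mem_biUnion]
    exact ⟨t, ht, by simpa [Fintype.mem_piFinset] using h⟩
  have h5 : ((Fintype.card β : ℝ) ^ (Fintype.card I)) ≤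
      F.card * ((Fintype.card β : ℝ) ^ (Fintype.card I) *
        Real.exp (-(L / Fintype.card β))) := by
    have h6 := (Finset.card_le_card hcover).trans Finset.card_biUnion_le
    rw [Finset.card_univ, Fintype.card_fun] at h6
    calc ((Fintype.card β : ℝ) ^ (Fintype.card I))
        = ((Fintype.card β ^ Fintype.card I : ℕ) : ℝ) := by push_cast; rfl
      _ ≤ ((∑ t ∈ F, (Fintype.piFinset (fun i => (S t i)ᶜ)).card : ℕ) : ℝ) := by
          exact_mod_cast h6
      _ = ∑ t ∈ F, ((Fintype.piFinset (fun i => (S t i)ᶜ)).card : ℝ) := by push_cast; rfl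
      _ ≤ ∑ t ∈ F, ((Fintype.card β : ℝ) ^ (Fintype.card I) *
            Real.exp (-(L / Fintype.card β))) := Finset.sum_le_sum hbad
      _ = _ := by rw [Finset.sum_const, nsmul_eq_mul]
  have h7 : 0 < (Fintype.card β : ℝ) ^ (Fintype.card I) := by positivity
  nlinarith

end Pool.Agent.H78.SM
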